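import Pool.Agent.Helper59_DPF.Full

/-!
Degree power sums of t-intersecting families: the full answer to Q1. Every `1 ≤ t ≤ k`, every degree
level `r ≤ k - 1`, every real `p ≥ 2` and the full range `n ≥ (t + 1)(k - t + 1)`.
-/

namespace Pool.Agent.Results.MP_d97b4e_co.AllDegreeLevels

open Finset Pool.Agent.DPS

/-- For `1 ≤ t ≤ k`, `r ≤ k - 1`, `n ≥ (t + 1)(k - t + 1)` and real `p ≥ 2` the sum of the p-th
powers of the r-degrees of a t-intersecting family of k-subsets of `Fin n` is at most that of a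
full t-star. -/
theorem result (n k t r : ℕ) (ht : 1 ≤ t) (htk : t ≤ k) (hr : r + 1 ≤ k)
    (hn : (t + 1) * (k - t + 1) ≤ n) (p : ℝ) (hp : 2 ≤ p)
    (A : Finset (Finset (Fin n))) (hA : A ⊆ powersetCard k univ) (hT : TInt t A)
    (T : Finset (Fin n)) (hTc : T.card = t) :
    ell r p A ≤ ell r p (fullStar k T) :=
  Pool.Agent.DPF.H59.full ht htk hr hn hp A hA hT T hTc

end Pool.Agent.Results.MP_d97b4e_co.AllDegreeLevels
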